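import Mathlib
import Pool.Agent.Y156.L.Thms

/-!
# Beilinson's conjecture for higher Chow groups and products with almost all abelian varieties

Let `g i` (`i` in a finite set `I`) be positive integers, `r` an integer smaller than all the `g i`
and `E` a number field.  For a prime power `q` let `S i` be the set of the characteristic
polynomials of Frobenius of the ordinary abelian varieties of dimension `g i` over the field with
`q` elements, or of all abelian varieties of dimension `g i`, or any set in between.  By Weil, Honda
and Tate its elements correspond to the isogeny classes, the first set contains `ordinaryWeilPolys q
(g i)`, and the second one is contained in `weilPolys q (g i)`.

For all families `f i` in `S i` with the exception of a proportion `O (q ^ (-1 / 6) log q)`, the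
constant depending only on `g` and `E`, the following holds for all `s > 0`, `Q = q ^ s`, and all
abelian varieties `A` over the field with `Q` elements which are isogenous to products of powers of
abelian varieties coming from the field with `q` elements, with characteristic polynomials `f i`.
There are finitely many products `D t` of divisors on `A`, of codimension `c t`, such that for
**all** smooth varieties `U` over the field with `Q` elements, proper or not, such that the Frobenius
endomorphism of `U` satisfies on the motivic cohomology `H^i(A × U, ℚ(j)) = CH^j(A × U, 2 j - i)_ℚ` a
polynomial equation whose roots generate, up to powers, a group of rank at most `r` modulo the
nonzero elements of `E`:

* **the Kunneth formula** `H^i(A × U, ℚ(j)) = ⨁ D t × H^(i - 2 c t)(U, ℚ(j - c t))`;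
* **the map of the question is injective for `A × U` in the bidegree `(i, j)` if and only if it is
  injective for `U` in the bidegrees `(i - 2 k, j - k)`, `0 ≤ k ≤ dim A`.** In particular Beilinson's
  conjecture for `A × U` is equivalent to Beilinson's conjecture for `U`.

The condition on `U` is satisfied, for instance, if the motive of `U` with rational coefficients is
obtained by direct summands and finitely many distinguished triangles from twists of
finite-dimensional Chow motives whose Frobenius eigenvalues generate, with their conjugates, modulo
`E` and up to powers, a group of rank at most `r`: e.g. for all smooth curves `U`, affine or
projective, of genus at most `r`, and (with `r = 0`) for all smooth projective `U` dominated by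
products of curves whose Frobenius eigenvalues have powers in `E`.

The definitions are in the files `Defs` and `Props` of `Pool/Agent/Y156/L`; the elements of motivic
cohomology on which the formal properties are formulated are tensored with `ℚ` or with
`ℚ_ℓ` (any `ℚ`-vector space).  The companion statement about surjectivity is the starting result
`AlmostAllAbelianFactors` of MP_81b968_ag; there the hypothesis is about the eigenvalues on the
`ℓ`-adic cohomology and the Kunneth formula is the one for the Frobenius invariants.  Here the
Kunneth formula is that of the motivic cohomology itself, and it is proved by means of nilpotence.

The idea of the proof: by a sieve (helper521), which only uses the primes that split completely in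
the Galois closure of `E`, almost all families are such that each pair `α`, `q / α` of roots can be
exchanged by a Galois automorphism which fixes all the other roots of all the `f i` and also all
elements of `E`.  So the product of a monomial in the roots without pairs of product `q` and of a
number in the group of rank `r` is not a power of `Q`.  Let `p` be the projector given by the `D t`
and dual classes.  A polynomial in Frobenius times `1 - p` is homologically trivial, hence nilpotent
(Kimura), and it acts invertibly on the part of the motivic cohomology killed by `p`.
-/

set_option autoImplicit false

namespace Pool.Agent.Results.MP_b52861_ag.AlmostAllAbelianFactors

open Pool.Agent.Y156.L

/-- Let `r < g i` for all `i` and let `E` be a number field. Almost all families of abelian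
varieties of dimensions `g i` over the field with `q` elements, given by their Weil polynomials
`f i`, have the property `BeilinsonForRankOver E q r f`. -/
theorem result {I : Type} [Fintype I] (g : I → ℕ) (r : ℕ) (hr : ∀ i, r < g i)
    (E : IntermediateField ℚ ℂ) [FiniteDimensional ℚ E] :
    AlmostAll g fun q f => BeilinsonForRankOver E q r f :=
  count_beilinson g r hr E

end Pool.Agent.Results.MP_b52861_ag.AlmostAllAbelianFactors
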