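import Pool.Agent.X312.FN.Comb

/-!
# A gap law for the kernels of the cycle class maps on higher Chow groups of `Y × X ^ n`

Let `X` be a smooth projective variety over the algebraic closure `k` of a finite field, such that
the numerically trivial self-correspondences of its powers are nilpotent, with `ℚ_ℓ`-coefficients
(by Kimura this holds if the Chow motive of `X` is finite-dimensional, for example for products of
curves and for abelian varieties), and such that `ℓ`-adic homological and numerical equivalence
agree on its powers (known for abelian varieties and products of curves and suitable `ℓ` by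
Clozel). Let `ρ(Z)` be the rank of the cycles of all codimensions on `Z` modulo numerical
equivalence, and `b` the sum of the Betti numbers of `X`. Let `Y` be **any smooth variety** over
`k`, not necessarily projective, fix `a ≥ 0` and consider the cycle class maps

`c : CH^j(Y × Z, a) ⊗ ℚ_ℓ → H^(2 j - a)(Y × Z, ℚ_ℓ(j))`, `j ∈ ℤ`.

Then for all `m ≥ 1`: **the maps** `c` **are injective for** `Y × X ^ m` **and all** `j`, **or for
all** `n ≥ 1` **the kernels of the maps** `c` **for** `Y × X ^ n` **(for all** `j` **together)
have dimension at least** `(1 - 4 (m + 3) b ^ (m + 5) log (n + 1) / n) ρ(X ^ n)`.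

The conjecture Q1 over all finite fields is equivalent to the injectivity of the maps `c` over
`k`, since `k` is the union of finite fields and since there are transfers. So for fixed `X` and
`Y` it is equivalent to the statement that for each `m` the kernel for `Y × X ^ n` has dimension
smaller than `(1 - ε_n) ρ(X ^ n)` for one `n`, where `ε_n = 4 (m + 3) b ^ (m + 5) log (n + 1) / n`
tends to zero. More generally the law holds for the kernels of all natural transformations between
additive functors on Chow motives.

The proof. Modulo numerical equivalence the self-correspondences of `P = X ^ m` form a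
finite-dimensional algebra, and the numerically trivial ones are nilpotent, so that idempotents
can be lifted. If the functor `T` does not vanish on `P`, one takes an idempotent correspondence
`g` on `P` of minimal rank with `g T(P) ≠ 0` and an element `z ≠ 0` of `g T(P)`. The
correspondences `x` with `x z = 0` have a nilpotent compression `g x g`, so the trace of `g x`
vanishes, and so `dim T(Z)` is at least the rank of the trace form `(u, v) ↦ tr (g v u)` on the
correspondences between `P` and `Z`; for `Z = X ^ n` this rank is compared with `ρ(X ^ n)` by the
log-convexity of the sequence of the ranks of the intersection forms and by the symmetric group.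
-/

set_option autoImplicit false

open CategoryTheory AlgebraicGeometry

universe u v w

namespace Pool.Agent.Results.MP_b52861_ag.FunctorGapLaw

open Pool.Agent.H914 VarClass Obj WeilCohomology
open Pool.Agent.X312.FN (CorrCat CorrFunctor Regulator DimAtLeast gapBound)
open Pool.Agent.Y133.Half (pw cycRank)

variable {k : Type u} [Field k] {𝒱 : VarClass k} {ops : CycleOps 𝒱}
  {W : WeilCohomology.{u, v} ops}

/-- The sum of the Betti numbers of `X`. -/
noncomputable def totalBetti (W : WeilCohomology.{u, v} ops) (X : 𝒱.Obj) : ℕ :=
  Module.finrank W.K (W.H X)

/-- The kernel of the map `c` on `Z`. -/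
abbrev kernelOf {F : Type w} [Field F] {σ : F →+* W.K} {C : CorrCat W σ} {S T : CorrFunctor C}
    (c : Regulator S T) (Z : 𝒱.Obj) : Submodule F (S.M Z) :=
  LinearMap.ker (c.c Z)

/-- **The gap law for the kernels of regulators.** Here `C` is the category of Chow correspondences
with coefficients in `F`, `c` is a natural transformation between additive functors, in the intended
use the cycle class map `⊕_j CH^j(Y × Z, a) ⊗ ℚ_ℓ → ⊕_j H^(2 j - a)(Y × Z, ℚ_ℓ(j))`, and `pw X m` is the
product of `m + 1` copies of `X`. -/
theorem result {F : Type w} [Field F] {σ : F →+* W.K} (C : CorrCat W σ) (hC : C.IsLawful)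
    {S T : CorrFunctor C} (c : Regulator S T) (X : 𝒱.Obj)
    (hX : ∀ n : ℕ, C.NumNil (pw X n)) (hD : ∀ n : ℕ, HomEqNum W (pw X n)) (m : ℕ) :
    (∀ x : S.M (pw X m), c.c _ x = 0 → x = 0) ∨
    ∀ n : ℕ, DimAtLeast F (kernelOf c (pw X n))
      (gapBound (totalBetti W X) (cycRank ops (pw X n)) m n) :=
  Pool.Agent.X312.FN.kernel_law hC c X hX hD m

end Pool.Agent.Results.MP_b52861_ag.FunctorGapLaw
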